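import Mathlib
import Pool.Agent.H74.WRTDefs
import Pool.Agent.H74.WRTFinal
import Pool.Agent.H74.WRTPi1

/-!
# Absolute values of quantum SU(5) invariants are not determined by the fundamental group

The lens spaces `L(5,1)` and `L(5,2)` have the same fundamental group, but their
Witten-Reshetikhin-Turaev `SU(5)` invariants at `r = 10` (level 5) are nonzero and have different
absolute values (about `83.312` and `89.721`).
-/

set_option autoImplicit false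

namespace Pool.Agent.Results.MP_8121b4_gt.LensSU5

open Finset Pool.Agent.H74.WRT

theorem qdim_eq (x : Fin 5 → ℕ) :
    qdim 5 10 x = SR zeta x (rho 5) / SR zeta (rho 5) (rho 5) := by
  rw [qdim, S_eq, S_eq]

theorem hopf_eq (x y : Fin 5 → ℕ) :
    hopf 5 10 x y = SR zeta x y / SR zeta (rho 5) (rho 5) := by
  rw [hopf, S_eq, S_eq]

theorem linkSum1 : L51.linkSum 5 10 = AR zeta / SR zeta (rho 5) (rho 5) ^ 2 := by
  rw [linkSum_L51, AR, Finset.sum_div]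
  refine Finset.sum_congr rfl fun x _ => ?_
  rw [twist_eq, qdim_eq, div_pow]
  ring

theorem linkSum2 : L52.linkSum 5 10 = BR zeta / SR zeta (rho 5) (rho 5) ^ 3 := by
  rw [linkSum_L52, BR, Finset.sum_div]
  refine Finset.sum_congr rfl fun x _ => ?_
  rw [Finset.mul_sum, Finset.sum_div]
  refine Finset.sum_congr rfl fun y _ => ?_
  rw [twist_eq, twist_eq, qdim_eq, qdim_eq, hopf_eq]
  have h := SR_zeta_ne
  field_simp

theorem TR_inv (x : Fin 5 → ℕ) : (TR zeta x)⁻¹ = TR zeta x ^ 99 := by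
  have h1 : TR zeta x ^ 100 = 1 := by
    rw [TR, ← pow_mul, mul_comm, pow_mul, zeta_prim.pow_eq_one, one_pow]
  refine inv_eq_of_mul_eq_one_right ?_
  rw [← pow_succ']
  exact h1

theorem Delta_eq : Delta 5 10 = GR zeta / SR zeta (rho 5) (rho 5) ^ 2 := by
  rw [Delta, GR, Finset.sum_div]
  refine Finset.sum_congr rfl fun x _ => ?_
  rw [twist_eq, qdim_eq, TR_inv, div_pow]
  ring

theorem Delta_ne : Delta 5 10 ≠ 0 := by
  rw [Delta_eq]
  exact div_ne_zero GR_zeta_ne (pow_ne_zero _ SR_zeta_ne)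

theorem phase_norm (k : ℤ) : ‖(Delta 5 10 / (‖Delta 5 10‖ : ℂ)) ^ k‖ = 1 := by
  rw [norm_zpow, norm_div, Complex.norm_real, norm_norm, div_self, one_zpow]
  exact norm_ne_zero_iff.2 Delta_ne

theorem D_sq : ((D 5 10 : ℝ) : ℂ) ^ 2 * ((‖SR zeta (rho 5) (rho 5)‖ : ℝ) : ℂ) ^ 2 = KR zeta := by
  have h := SR_zeta_ne
  have h0 : (0 : ℝ) ≤ ∑ x ∈ weights 5 10, ‖qdim 5 10 x‖ ^ 2 :=
    Finset.sum_nonneg fun _ _ => by positivity
  have h1 : (D 5 10) ^ 2 = ∑ x ∈ weights 5 10, ‖qdim 5 10 x‖ ^ 2 := Real.sq_sqrt h0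
  have h2 : ‖SR zeta (rho 5) (rho 5)‖ ≠ 0 := norm_ne_zero_iff.2 h
  have h3 : (D 5 10) ^ 2 * ‖SR zeta (rho 5) (rho 5)‖ ^ 2 =
      ∑ x ∈ weights 5 10, ‖SR zeta x (rho 5)‖ ^ 2 := by
    rw [h1, Finset.sum_mul]
    refine Finset.sum_congr rfl fun x _ => ?_
    rw [qdim_eq, norm_div, div_pow]
    field_simp
  have h4 : ((D 5 10 : ℝ) : ℂ) ^ 2 * ((‖SR zeta (rho 5) (rho 5)‖ : ℝ) : ℂ) ^ 2 =
      (((D 5 10) ^ 2 * ‖SR zeta (rho 5) (rho 5)‖ ^ 2 : ℝ) : ℂ) := by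
    push_cast
    ring
  rw [h4, h3, KR]
  push_cast
  refine Finset.sum_congr rfl fun x _ => ?_
  have h5 := normSq_eq (SR zeta x (rho 5))
  push_cast at h5
  rw [h5, map_SR, conj_zeta]

theorem D_ne : D 5 10 ≠ 0 := by
  intro h
  have := D_sq
  rw [h] at this
  simp at this
  exact KR_zeta_ne this.symm

theorem D_pos : 0 < D 5 10 := lt_of_le_of_ne (Real.sqrt_nonneg _) (Ne.symm D_ne)

theorem norm1 : ‖L51.wrt 5 10‖ =
    (D 5 10)⁻¹ * (‖AR zeta‖ / ‖SR zeta (rho 5) (rho 5)‖ ^ 2) := by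
  rw [Plumbing.wrt, norm_mul, norm_mul, phase_norm, one_mul, linkSum1, norm_div, norm_pow,
    norm_inv, norm_pow, Complex.norm_real, Real.norm_of_nonneg D_pos.le]
  have : L51.n = 1 := rfl
  rw [this, pow_one]

theorem norm2 : ‖L52.wrt 5 10‖ =
    ((D 5 10) ^ 2)⁻¹ * (‖BR zeta‖ / ‖SR zeta (rho 5) (rho 5)‖ ^ 3) := by
  rw [Plumbing.wrt, norm_mul, norm_mul, phase_norm, one_mul, linkSum2, norm_div, norm_pow,
    norm_inv, norm_pow, Complex.norm_real, Real.norm_of_nonneg D_pos.le]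
  rfl

/-- The plumbed 3-manifolds `L(5,1)` and `L(5,2)` both have fundamental group of order `5`, their
`SU(5)` invariants at `r = 10` are nonzero, and the absolute values of these are different. -/
theorem result :
    Nonempty (L51.pi1 ≃* Multiplicative (ZMod 5)) ∧
    Nonempty (L52.pi1 ≃* Multiplicative (ZMod 5)) ∧
    L51.wrt 5 10 ≠ 0 ∧ L52.wrt 5 10 ≠ 0 ∧ ‖L51.wrt 5 10‖ ≠ ‖L52.wrt 5 10‖ := by
  have hs : 0 < ‖SR zeta (rho 5) (rho 5)‖ := norm_pos_iff.2 SR_zeta_ne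
  have hA : 0 < ‖AR zeta‖ := norm_pos_iff.2 AR_zeta_ne
  have hB : 0 < ‖BR zeta‖ := norm_pos_iff.2 BR_zeta_ne
  have hD := D_pos
  refine ⟨pi1_one _, pi1_two _, ?_, ?_, ?_⟩
  · rw [← norm_pos_iff, norm1]
    exact mul_pos (inv_pos.2 hD) (div_pos hA (pow_pos hs _))
  · rw [← norm_pos_iff, norm2]
    exact mul_pos (inv_pos.2 (pow_pos hD _)) (div_pos hB (pow_pos hs _))
  · rw [norm1, norm2]
    intro h
    have h1 : D 5 10 * ‖SR zeta (rho 5) (rho 5)‖ * ‖AR zeta‖ = ‖BR zeta‖ := by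
      field_simp at h
      linarith
    have h2 : ((D 5 10) ^ 2 * ‖SR zeta (rho 5) (rho 5)‖ ^ 2) * ‖AR zeta‖ ^ 2 = ‖BR zeta‖ ^ 2 := by
      rw [← h1]
      ring
    have h3 : KR zeta * (AR zeta * AR (zeta ^ 99)) = BR zeta * BR (zeta ^ 99) := by
      have e1 := normSq_eq (AR zeta)
      have e2 := normSq_eq (BR zeta)
      rw [map_AR, conj_zeta] at e1
      rw [map_BR, conj_zeta] at e2
      rw [← e1, ← e2, ← h2, ← D_sq]
      push_cast
      ring
    exact FR_zeta_ne (sub_eq_zero.2 h3)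

end Pool.Agent.Results.MP_8121b4_gt.LensSU5
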